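import Pool.Agent.Lib.MP_5fcc10_co_lin.DelDef
import Pool.Agent.Lib.MP_5fcc10_co.Core2

/-! Module SEP: two different decompositions separate. -/

set_option linter.unusedSectionVars false

namespace Pool.Agent.SK.Lin

open Finset
open scoped symmDiff

variable {n p : ℕ}

/-! ### paths -/

/-- the vertices of a path -/
lemma comp_seq {κ : Type*} {R : ℕ → κ → κ → Prop} {s t : ℕ} {x y : κ} (h : Comp R s t x y) :
    ∃ g : ℕ → κ, g s = x ∧ g t = y ∧ ∀ u, s ≤ u → u < t → R u (g u) (g (u + 1)) := by
  induction h with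
  | refl a => exact ⟨fun _ => a, rfl, rfl, fun u h1 h2 => by omega⟩
  | step t a b c h1 h2 ih =>
    obtain ⟨g, g1, g2, g3⟩ := ih
    have hst := h1.le
    refine ⟨fun u => if u = t + 1 then c else g u, ?_, ?_, ?_⟩
    · beta_reduce
      rw [if_neg (by omega)]
      exact g1
    · beta_reduce
      rw [if_pos rfl]
    · intro u hu1 hu2
      beta_reduce
      rw [if_neg (by omega)]
      by_cases hut : u = t
      · rw [if_pos (by omega), hut, g2]
        exact h2
      · rw [if_neg (by omega)]
        exact g3 u hu1 (by omega)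

lemma comp_of_seq {κ : Type*} {R : ℕ → κ → κ → Prop} {s t : ℕ} (g : ℕ → κ)
    (h : ∀ u, s ≤ u → u < t → R u (g u) (g (u + 1))) (u : ℕ) (h1 : s ≤ u) (h2 : u ≤ t) :
    Comp R s u (g s) (g u) := by
  induction u, h1 using Nat.le_induction with
  | base => exact Comp.refl _ _
  | succ u hu ih => exact Comp.step _ _ _ _ _ (ih (by omega)) (h u hu (by omega))

lemma pv_zero (Z : Finset (Fin n)) {d : ℕ} (a : Fin d → Fin n) : pv Z a 0 = Z := by
  unfold pv
  have : univ.filter (fun r : Fin d => r.val < 0) = ∅ := by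
    rw [filter_eq_empty_iff]
    intro r _ h
    exact absurd h (Nat.not_lt_zero _)
  rw [this, image_empty]
  exact symmDiff_bot Z

lemma pv_succ (Z : Finset (Fin n)) {d : ℕ} {a : Fin d → Fin n} (ha : Function.Injective a)
    (l : Fin d) : pv Z a (l.val + 1) = tg (pv Z a l.val) (a l) := by
  unfold pv tg
  have h1 : univ.filter (fun r : Fin d => r.val < l.val + 1)
      = insert l (univ.filter (fun r : Fin d => r.val < l.val)) := by
    ext r
    rw [mem_filter, mem_insert, mem_filter, Fin.ext_iff]
    constructor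
    · rintro ⟨_, h⟩
      by_cases hr : r.val = l.val
      · exact Or.inl hr
      · exact Or.inr ⟨mem_univ _, by omega⟩
    · rintro (h | h)
      · exact ⟨mem_univ _, by omega⟩
      · exact ⟨mem_univ _, by omega⟩
  have h2 : a l ∉ (univ.filter (fun r : Fin d => r.val < l.val)).image a := by
    intro h
    rw [mem_image] at h
    obtain ⟨r, hr, h3⟩ := h
    rw [ha h3, mem_filter] at hr
    exact lt_irrefl _ hr.2
  rw [h1, image_insert, symmDiff_assoc]
  congr 1
  ext z
  rw [mem_symmDiff, mem_insert, mem_singleton]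
  constructor
  · rintro (h | h)
    · right
      exact ⟨h, h ▸ h2⟩
    · left
      exact ⟨h, fun hz => h2 (hz ▸ h)⟩
  · rintro (h | h)
    · exact Or.inr h.1
    · exact Or.inl h.1

/-- an increasing sequence of sets -/
structure Inc (d : ℕ) (G : ℕ → Finset (Fin n)) (E : ℕ → Fin n) : Prop where
  notMem : ∀ l, l < d → E l ∉ G l
  succ : ∀ l, l < d → G (l + 1) = insert (E l) (G l)

lemma Inc.mono {d : ℕ} {G : ℕ → Finset (Fin n)} {E : ℕ → Fin n} (h : Inc d G E) {l m : ℕ}
    (hlm : l ≤ m) (hm : m ≤ d) : G l ⊆ G m := by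
  induction m, hlm using Nat.le_induction with
  | base => exact Subset.refl _
  | succ m hm' ih =>
    rw [h.succ m (by omega)]
    exact (ih (by omega)).trans (subset_insert _ _)

/-- the directions -/
def dirs (d : ℕ) (E : ℕ → Fin n) : Fin d → Fin n := fun r => E r.val

lemma Inc.inj {d : ℕ} {G : ℕ → Finset (Fin n)} {E : ℕ → Fin n} (h : Inc d G E) :
    Function.Injective (dirs d E) := by
  have key : ∀ l m : Fin d, l.val < m.val → dirs d E l ≠ dirs d E m := by
    intro l m hlm he
    apply h.notMem m.val m.isLt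
    have h1 : E l.val ∈ G (l.val + 1) := by
      rw [h.succ l.val l.isLt]
      exact mem_insert_self _ _
    have h2 := h.mono (Nat.succ_le_of_lt hlm) m.isLt.le h1
    unfold dirs at he
    rw [← he]
    exact h2
  intro l m he
  rcases lt_trichotomy l.val m.val with hlt | heq | hgt
  · exact absurd he (key l m hlt)
  · exact Fin.ext heq
  · exact absurd he.symm (key m l hgt)

lemma Inc.pv_eq {d : ℕ} {G : ℕ → Finset (Fin n)} {E : ℕ → Fin n} (h : Inc d G E) (l : ℕ)
    (hl : l ≤ d) : pv (G 0) (dirs d E) l = G l := by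
  induction l with
  | zero => exact pv_zero _ _
  | succ l ih =>
    have h1 := pv_succ (G 0) h.inj (⟨l, hl⟩ : Fin d)
    simp only at h1
    rw [h1, ih (by omega), h.succ l hl]
    exact tg_of_notMem (h.notMem l hl)

lemma Inc.tg_down {d : ℕ} {G : ℕ → Finset (Fin n)} {E : ℕ → Fin n} (h : Inc d G E) (l : ℕ)
    (hl : l < d) : tg (G (l + 1)) (E l) = G l := by
  rw [h.succ l hl, ← tg_of_notMem (h.notMem l hl), tg_tg]

lemma Inc.pv_rev {d : ℕ} {G : ℕ → Finset (Fin n)} {E : ℕ → Fin n} (h : Inc d G E) (l : ℕ)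
    (hl : l ≤ d) : pv (G d) (dirs d E ∘ Fin.rev) l = G (d - l) := by
  induction l with
  | zero => rw [pv_zero, Nat.sub_zero]
  | succ l ih =>
    have h1 := pv_succ (G d) (h.inj.comp Fin.rev_injective) (⟨l, hl⟩ : Fin d)
    simp only at h1
    rw [h1, ih (by omega)]
    have h2 : (dirs d E ∘ Fin.rev) ⟨l, hl⟩ = E (d - (l + 1)) := by
      unfold dirs
      rw [Function.comp_apply, Fin.val_rev]
    rw [h2]
    have h3 : d - l = (d - (l + 1)) + 1 := by omega
    rw [h3]
    exact h.tg_down _ (by omega)

/-- every direction of the path is new -/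
lemma Inc.mem_iff {d : ℕ} {G : ℕ → Finset (Fin n)} {E : ℕ → Fin n} (h : Inc d G E) (z : Fin n) :
    z ∈ univ.image (dirs d E) ↔ z ∈ G d ∧ z ∉ G 0 := by
  have key : ∀ l, l ≤ d → (z ∈ G l ↔ z ∈ G 0 ∨ ∃ r, r < l ∧ E r = z) := by
    intro l
    induction l with
    | zero => intro _; simp
    | succ l ih =>
      intro hl
      rw [h.succ l hl, mem_insert, ih (by omega)]
      constructor
      · rintro (h1 | h1 | ⟨r, h1, h2⟩)
        · exact Or.inr ⟨l, by omega, h1.symm⟩
        · exact Or.inl h1
        · exact Or.inr ⟨r, by omega, h2⟩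
      · rintro (h1 | ⟨r, h1, h2⟩)
        · exact Or.inr (Or.inl h1)
        · by_cases hr : r = l
          · exact Or.inl (by rw [← h2, hr])
          · exact Or.inr (Or.inr ⟨r, by omega, h2⟩)
  rw [mem_image]
  constructor
  · rintro ⟨r, _, hr⟩
    refine ⟨(key d le_rfl).2 (Or.inr ⟨r.val, r.isLt, hr⟩), ?_⟩
    intro h0
    rw [← hr] at h0
    exact h.notMem r.val r.isLt (h.mono (Nat.zero_le _) r.isLt.le h0)
  · rintro ⟨h1, h2⟩
    rcases (key d le_rfl).1 h1 with h3 | ⟨r, hr, h3⟩
    · exact absurd h3 h2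
    · exact ⟨⟨r, hr⟩, mem_univ _, h3⟩

lemma perm_of_image {d : ℕ} {a a' : Fin d → Fin n} (ha' : Function.Injective a')
    (h : ∀ r, a' r ∈ univ.image a) : ∃ π : Equiv.Perm (Fin d), a' = a ∘ π := by
  have h1 : ∀ r, ∃ r', a r' = a' r := by
    intro r
    obtain ⟨r', _, h2⟩ := mem_image.1 (h r)
    exact ⟨r', h2⟩
  choose f hf using h1
  have hinj : Function.Injective f := by
    intro r r' he
    apply ha'
    rw [← hf, ← hf, he]
  refine ⟨Equiv.ofBijective f (Finite.injective_iff_bijective.1 hinj), ?_⟩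
  funext r
  exact (hf r).symm

lemma conn_of_ne {d : ℕ} (w : Finset (Fin n)) (a : Fin d → Fin n) (π : Equiv.Perm (Fin d))
    (h : ∀ l, 0 < l → l < d → pv w a l ≠ pv w (a ∘ π) l) : conn π := by
  intro l h0 hl hmap
  apply h l h0 hl
  unfold pv
  congr 1
  have h1 : (univ.filter (fun r : Fin d => r.val < l)).image π
      = univ.filter (fun r : Fin d => r.val < l) := by
    apply eq_of_subset_of_card_le
    · intro z hz
      rw [mem_image] at hz
      obtain ⟨r, hr, h2⟩ := hz
      rw [mem_filter] at hr ⊢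
      exact ⟨mem_univ _, h2 ▸ hmap r hr.2⟩
    · rw [card_image_of_injective _ π.injective]
  rw [← image_image, h1]

/-- a path of a class, upwards -/
lemma pes_up {ψ : Ix n → Lb p} {c : ZMod p} {d : ℕ} {G : ℕ → Finset (Fin n)} {E : ℕ → Fin n}
    (h : Inc d G E) (hc : ∀ l, l < d → col ψ (G l) (E l) = c) :
    ∀ x ∈ pes (G 0) (dirs d E), (ψ x).1 = c := by
  intro x hx
  unfold pes at hx
  rw [mem_image] at hx
  obtain ⟨l, _, hl⟩ := hx
  rw [← hl]
  unfold pe
  rw [h.pv_eq l.val l.isLt.le]
  exact hc l.val l.isLt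

/-- a path of a class, downwards -/
lemma pes_down {ψ : Ix n → Lb p} {c : ZMod p} {d : ℕ} {G : ℕ → Finset (Fin n)} {E : ℕ → Fin n}
    (h : Inc d G E) (hc : ∀ l, l < d → col ψ (G l) (E l) = c) :
    ∀ x ∈ pes (G d) (dirs d E ∘ Fin.rev), (ψ x).1 = c := by
  intro x hx
  unfold pes at hx
  rw [mem_image] at hx
  obtain ⟨l, _, hl⟩ := hx
  rw [← hl]
  unfold pe
  rw [h.pv_rev l.val l.isLt.le]
  have h2 : (dirs d E ∘ Fin.rev) l = E (d - (l.val + 1)) := by
    unfold dirs
    rw [Function.comp_apply, Fin.val_rev]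
  have hlt := l.isLt
  have h3 : d - l.val = (d - (l.val + 1)) + 1 := by omega
  rw [h2, h3, h.succ _ (by omega), ← tg_of_notMem (h.notMem _ (by omega)), ed_tg]
  exact hc _ (by omega)

theorem sep {n p N : ℕ} (a b lo hi d0 L : ℕ) (hb : b ≤ a + 2) (hL : hi ≤ lo + L)
    (ψ : Ix n → Lb p) (cls : Fin N → Lb p)
    (R : Fin N → ℕ → Finset (Fin n) → Finset (Fin n) → Prop)
    (hR : ∀ i t x y, R i t x y → x.card = t ∧ ∃ e, e ∉ x ∧ y = insert e x ∧ opP (cls i) ψ x e ∧
      (t < a → ¬ Del d0 ψ (cls i).1 x e) ∧ (b ≤ t → ¬ Del d0 ψ (cls i).1 y e))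
    (hdisj : ∀ i j t x y, i ≠ j → R i t x y → R j t x y → False)
    (hlong : ∀ d, d0 < d → d ≤ L → ∀ (Z : Finset (Fin n)) (a : Fin d → Fin n)
      (π : Equiv.Perm (Fin d)) (i j : ZMod p), Function.Injective a → conn π →
      ¬ DPo ψ Z a π i j)
    (i j : Fin N) (hij : i ≠ j) (s t : ℕ) (hs : lo ≤ s) (hst : s < t) (ht : t ≤ hi)
    (x y : Finset (Fin n)) (h1 : Comp (R i) s t x y) (h2 : Comp (R j) s t x y) : False := by
  obtain ⟨k, hk⟩ : ∃ k, t - s = k := ⟨_, rfl⟩
  induction k using Nat.strong_induction_on generalizing t x y with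
  | _ k ih =>
    obtain ⟨g, g0, g1, g2⟩ := comp_seq h1
    obtain ⟨g', g0', g1', g2'⟩ := comp_seq h2
    -- no common vertex inside
    have hne : ∀ u, s < u → u < t → g u ≠ g' u := by
      intro u hu1 hu2 he
      refine ih (u - s) (by omega) u hu1 (by omega) x (g u) ?_ ?_ rfl
      · rw [← g0]
        exact comp_of_seq g g2 u hu1.le hu2.le
      · rw [← g0', he]
        exact comp_of_seq g' g2' u hu1.le hu2.le
    -- the directions
    have e1 : ∀ u, ∃ e, s ≤ u → u < t → e ∉ g u ∧ g (u + 1) = insert e (g u) ∧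
        opP (cls i) ψ (g u) e ∧ (u < a → ¬ Del d0 ψ (cls i).1 (g u) e) ∧
        (b ≤ u → ¬ Del d0 ψ (cls i).1 (g (u + 1)) e) := by
      intro u
      by_cases hu : s ≤ u ∧ u < t
      · obtain ⟨_, e, he⟩ := hR i u _ _ (g2 u hu.1 hu.2)
        exact ⟨e, fun _ _ => he⟩
      · obtain ⟨_, e, he⟩ := hR i s _ _ (g2 s le_rfl hst)
        exact ⟨e, fun h3 h4 => absurd ⟨h3, h4⟩ hu⟩
    have e2 : ∀ u, ∃ e, s ≤ u → u < t → e ∉ g' u ∧ g' (u + 1) = insert e (g' u) ∧
        opP (cls j) ψ (g' u) e := by
      intro u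
      by_cases hu : s ≤ u ∧ u < t
      · obtain ⟨_, e, he⟩ := hR j u _ _ (g2' u hu.1 hu.2)
        exact ⟨e, fun _ _ => ⟨he.1, he.2.1, he.2.2.1⟩⟩
      · obtain ⟨_, e, he⟩ := hR j s _ _ (g2' s le_rfl hst)
        exact ⟨e, fun h3 h4 => absurd ⟨h3, h4⟩ hu⟩
    choose e he using e1
    choose e' he' using e2
    obtain ⟨d, hd⟩ : ∃ d, d = t - s := ⟨_, rfl⟩
    have hsd : s + d = t := by omega
    have hd0 : 0 < d := by omega
    obtain ⟨G, hG⟩ : ∃ G : ℕ → Finset (Fin n), G = fun l => g (s + l) := ⟨_, rfl⟩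
    obtain ⟨G', hG'⟩ : ∃ G : ℕ → Finset (Fin n), G = fun l => g' (s + l) := ⟨_, rfl⟩
    obtain ⟨E, hE⟩ : ∃ E : ℕ → Fin n, E = fun l => e (s + l) := ⟨_, rfl⟩
    obtain ⟨E', hE'⟩ : ∃ E : ℕ → Fin n, E = fun l => e' (s + l) := ⟨_, rfl⟩
    have hGl : ∀ l, G l = g (s + l) := fun l => by rw [hG]
    have hGl' : ∀ l, G' l = g' (s + l) := fun l => by rw [hG']
    have hEl : ∀ l, E l = e (s + l) := fun l => by rw [hE]
    have hEl' : ∀ l, E' l = e' (s + l) := fun l => by rw [hE']
    have hinc : Inc d G E := by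
      refine ⟨fun l hl => ?_, fun l hl => ?_⟩
      · rw [hGl, hEl]
        exact (he (s + l) (by omega) (by omega)).1
      · rw [hGl, hGl, hEl]
        exact (he (s + l) (by omega) (by omega)).2.1
    have hinc' : Inc d G' E' := by
      refine ⟨fun l hl => ?_, fun l hl => ?_⟩
      · rw [hGl', hEl']
        exact (he' (s + l) (by omega) (by omega)).1
      · rw [hGl', hGl', hEl']
        exact (he' (s + l) (by omega) (by omega)).2.1
    have hop : ∀ l, l < d → opP (cls i) ψ (G l) (E l) := fun l hl => by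
      rw [hGl, hEl]
      exact (he (s + l) (by omega) (by omega)).2.2.1
    have hop' : ∀ l, l < d → opP (cls j) ψ (G' l) (E' l) := fun l hl => by
      rw [hGl', hEl']
      exact (he' (s + l) (by omega) (by omega)).2.2
    have hG0 : G' 0 = G 0 := by
      rw [hGl, hGl', Nat.add_zero, g0, g0']
    have hGd : G' d = G d := by
      rw [hGl, hGl', hsd, g1, g1']
    have hGne : ∀ l, 0 < l → l < d → G l ≠ G' l := by
      intro l hl1 hl2
      rw [hGl, hGl']
      exact hne (s + l) (by omega) (by omega)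
    -- the permutation
    obtain ⟨π, hπ⟩ : ∃ π : Equiv.Perm (Fin d), dirs d E' = dirs d E ∘ π := by
      apply perm_of_image hinc'.inj
      intro r
      have h3 := (hinc'.mem_iff (dirs d E' r)).1 (mem_image_of_mem _ (mem_univ r))
      rw [hG0, hGd] at h3
      exact (hinc.mem_iff _).2 h3
    have hconn : conn π := by
      apply conn_of_ne (G 0) (dirs d E) π
      intro l hl1 hl2
      rw [← hπ, hinc.pv_eq l hl2.le, ← hG0, hinc'.pv_eq l hl2.le]
      exact hGne l hl1 hl2
    have hDP : DPo ψ (G 0) (dirs d E) π (cls i).1 (cls j).1 := by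
      constructor
      · exact pes_up hinc (fun l hl => (hop l hl).1)
      · rw [← hπ, ← hG0]
        exact pes_up hinc' (fun l hl => (hop' l hl).1)
    rcases Nat.lt_or_ge d 3 with hd3 | hd3
    · -- short
      rcases Nat.lt_or_ge d 2 with hd2 | hd2
      · -- a common edge
        have hd1 : d = 1 := by omega
        have h3 := g2 s le_rfl hst
        have h4 := g2' s le_rfl hst
        have h5 : s + 1 = t := by omega
        rw [h5, g0, g1] at h3
        rw [h5, g0', g1'] at h4
        exact hdisj i j s x y hij h3 h4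
      · -- a square
        have hd2' : d = 2 := by omega
        have hne1 := hGne 1 (by omega) (by omega)
        have a1 : G 1 = insert (E 0) (G 0) := hinc.succ 0 (by omega)
        have a2 : G' 1 = insert (E' 0) (G 0) := by
          rw [hinc'.succ 0 (by omega), hG0]
        have hE0 : E 0 ≠ E' 0 := by
          intro h3
          apply hne1
          rw [a1, a2, h3]
        have a3 : G d = insert (E 1) (G 1) := by
          have := hinc.succ 1 (by omega)
          rw [hd2']
          exact this
        have a4 : G' d = insert (E' 1) (G' 1) := by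
          have := hinc'.succ 1 (by omega)
          rw [hd2']
          exact this
        have n0 := hinc.notMem 0 (by omega)
        have n0' := hinc'.notMem 0 (by omega)
        have n1 := hinc.notMem 1 (by omega)
        have n1' := hinc'.notMem 1 (by omega)
        rw [hG0] at n0'
        have b1 : E' 0 = E 1 := by
          have h3 : E' 0 ∈ G d := by
            rw [← hGd, a4, a2]
            exact mem_insert_of_mem (mem_insert_self _ _)
          rw [a3, a1, mem_insert, mem_insert] at h3
          rcases h3 with h3 | h3 | h3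
          · exact h3
          · exact absurd h3.symm hE0
          · exact absurd h3 n0'
        have b2 : E' 1 = E 0 := by
          have h3 : E' 1 ∈ G d := by
            rw [← hGd, a4]
            exact mem_insert_self _ _
          rw [a3, a1, mem_insert, mem_insert] at h3
          rw [a2, mem_insert, not_or] at n1'
          rcases h3 with h3 | h3 | h3
          · exact absurd (h3.trans b1.symm) n1'.1
          · exact h3
          · exact absurd h3 n1'.2
        have o0 := (hop 0 (by omega)).2
        have o1 := (hop 1 (by omega)).2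
        have o0' := (hop' 0 (by omega)).2
        have o1' := (hop' 1 (by omega)).2
        rw [a1, ← tg_of_notMem n0] at o1
        rw [hG0, b1] at o0'
        rw [a2, ← tg_of_notMem n0', b1, b2] at o1'
        exact square ψ (G 0) (E 0) (E 1) (b1 ▸ hE0) (cls i).2 (cls j).2 o0 o1 o0' o1'
    · rcases Nat.lt_or_ge d0 d with hdd | hdd
      · exact hlong d hdd (by omega) (G 0) (dirs d E) π _ _ hinc.inj hconn hDP
      · rcases Nat.lt_or_ge s a with hsa | hsa
        · -- the bottom edge is deleted
          apply (he s le_rfl hst).2.2.2.1 hsa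
          refine ⟨d, dirs d E, π, (cls j).1, hd0, hd3, hdd, hinc.inj, hconn, ?_, ?_⟩
          · have h3 : g s = G 0 := by rw [hGl, Nat.add_zero]
            rw [h3]
            exact hDP
          · unfold dirs
            rw [hEl, Nat.add_zero]
        · -- the top edge is deleted
          have h3 := (he (t - 1) (by omega) (by omega)).2.2.2.2 (by omega)
          apply h3
          have h4 : t - 1 + 1 = t := by omega
          obtain ⟨ρ, hρ⟩ : ∃ ρ : Equiv.Perm (Fin d), ρ = (Fin.revPerm.trans π).trans Fin.revPerm :=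
            ⟨_, rfl⟩
          have h5 : (dirs d E ∘ Fin.rev) ∘ ρ = dirs d E' ∘ Fin.rev := by
            funext r
            rw [hρ, hπ]
            simp
          refine ⟨d, dirs d E ∘ Fin.rev, ρ, (cls j).1, hd0, hd3, hdd,
            hinc.inj.comp Fin.rev_injective, ?_, ?_, ?_⟩
          · apply conn_of_ne (G d) (dirs d E ∘ Fin.rev) ρ
            intro l hl1 hl2
            rw [h5, hinc.pv_rev l hl2.le, ← hGd, hinc'.pv_rev l hl2.le]
            exact hGne (d - l) (by omega) (by omega)
          · have h6 : g (t - 1 + 1) = G d := by rw [hGl, hsd, h4]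
            rw [h6]
            constructor
            · exact pes_down hinc (fun l hl => (hop l hl).1)
            · rw [h5, ← hGd]
              exact pes_down hinc' (fun l hl => (hop' l hl).1)
          · rw [Function.comp_apply]
            unfold dirs
            rw [Fin.val_rev, hEl]
            congr 1
            simp only
            omega

end Pool.Agent.SK.Lin
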